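import Mathlib
import Pool.Agent.H771R2.SingerDS

/-! Difference sets with Singer parameters: divisors of the order of the group. -/

set_option autoImplicit false

namespace Q17.Sing

open Finset Pool.Agent.H771R2.SingerDS Pool.Agent.H771R2.Lander

/-- The test at a prime divisor `q` of the order of the group. -/
theorem excluded_dvd {n m q p a u j : ℕ} (hm : Odd m) (hm3 : 3 ≤ m) (hn : 2 ≤ n)
    (h : HasSinger n m) (hq : q.Prime) (hqv : q ∣ ∑ i ∈ Finset.range m, n ^ i) (hp : p.Prime)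
    (hnu : n = p ^ a * u) (hpu : ¬ p ∣ u) (ha : Odd a) (hj : (p : ZMod q) ^ j = -1) : False := by
  obtain ⟨G, hG, hGf, hGd, D, h1, h2, h3⟩ := h
  have : Fact q.Prime := ⟨hq⟩
  have hn1 : 0 < n - 1 := by omega
  have hgeom : ∀ j : ℕ, (∑ i ∈ Finset.range j, n ^ i) * (n - 1) = n ^ j - 1 := by
    intro j
    exact Nat.geomSum_eq (by omega) j ▸ (Nat.div_mul_cancel (by
      simpa using Nat.sub_dvd_pow_sub_pow n 1 j))
  have hv : Fintype.card G = ∑ i ∈ Finset.range m, n ^ i :=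
    Nat.eq_of_mul_eq_mul_right hn1 (h1.trans (hgeom m).symm)
  have hk : D.card = ∑ i ∈ Finset.range (m - 1), n ^ i :=
    Nat.eq_of_mul_eq_mul_right hn1 (h2.trans (hgeom (m - 1)).symm)
  have hlam : ∀ g : G, g ≠ 1 → ((D ×ˢ D).filter (fun p : G × G => p.1 * p.2⁻¹ = g)).card =
      ∑ i ∈ Finset.range (m - 2), n ^ i := fun g hg =>
    Nat.eq_of_mul_eq_mul_right hn1 ((h3 g hg).trans (hgeom (m - 2)).symm)
  have hodd : Odd (Fintype.card G) := by
    obtain ⟨j, rfl⟩ := hm
    rw [hv]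
    exact odd_geom n j
  have hru : ¬ (p : ℤ) ∣ ((u : ℤ) ^ (m - 2)) := by
    intro h4
    have h5 := (Nat.prime_iff_prime_int.1 hp).dvd_of_dvd_pow h4
    exact hpu (by exact_mod_cast h5)
  refine no_difference_set D _ _ hk hlam hodd hq (by rw [hv]; exact hqv) hp hj
    (a := a * (m - 2)) ?_ hru ?_
  · refine ha.mul ?_
    obtain ⟨j, rfl⟩ := hm
    exact ⟨j - 1, by omega⟩
  · have h4 : m - 1 = (m - 2) + 1 := by omega
    rw [h4, Finset.sum_range_succ]
    push_cast
    rw [hnu]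
    push_cast
    ring

lemma geom_dvd {n l m : ℕ} (h : l ∣ m) :
    (∑ i ∈ Finset.range l, n ^ i) ∣ ∑ i ∈ Finset.range m, n ^ i := by
  obtain ⟨c, rfl⟩ := h
  refine ⟨∑ j ∈ Finset.range c, n ^ (l * j), ?_⟩
  induction c with
  | zero => simp
  | succ c ih =>
    have h1 : ∑ i ∈ Finset.range (l * (c + 1)), n ^ i = ∑ i ∈ Finset.range (l * c), n ^ i +
        ∑ i ∈ Finset.range l, n ^ (l * c + i) := by
      rw [Nat.mul_succ, Finset.sum_range_add (fun i => n ^ i)]
    have h2 : ∑ i ∈ Finset.range l, n ^ (l * c + i) =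
        (∑ i ∈ Finset.range l, n ^ i) * n ^ (l * c) := by
      rw [Finset.sum_mul]
      refine Finset.sum_congr rfl fun i _ => ?_
      rw [← pow_add, add_comm]
    rw [h1, ih, Finset.sum_range_succ, mul_add, h2]

lemma geom_mod_four {n : ℕ} (hn : n % 4 = 1) (l : ℕ) :
    (∑ i ∈ Finset.range l, n ^ i) % 4 = l % 4 := by
  induction l with
  | zero => rfl
  | succ l ih =>
    rw [Finset.sum_range_succ, Nat.add_mod, ih, Nat.pow_mod, hn, one_pow]
    omega

/-- The main result. -/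
theorem main {n m q : ℕ} (hn : n % 4 = 1) (hns : ¬ ∃ a b : ℕ, n = a ^ 2 + b ^ 2) (hm : Odd m)
    (hq : q.Prime) (hq4 : q % 4 = 3) (hqm : q ∣ m) : ¬ HasSinger n m := by
  intro h
  have hn0 : n ≠ 0 := by omega
  have hn1 : n ≠ 1 := fun h1 => hns ⟨1, 0, by omega⟩
  have hm3 : 3 ≤ m := by
    have h1 := Nat.le_of_dvd hm.pos hqm
    omega
  -- the prime `p`
  obtain ⟨p, hp, hp4, hpa⟩ : ∃ p : ℕ, p.Prime ∧ p % 4 = 3 ∧ Odd (n.factorization p) := by
    by_contra hcon
    push Not at hcon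
    apply hns
    rw [Nat.eq_sq_add_sq_iff]
    intro p hpn hp4
    have hp := Nat.prime_of_mem_primeFactors hpn
    have h1 := hcon p hp hp4
    rw [Nat.not_odd_iff_even, Nat.factorization_def _ hp] at h1
    exact h1
  set a := n.factorization p with hadef
  set u := n / p ^ a with hu
  have hnu : n = p ^ a * u := (Nat.ordProj_mul_ordCompl_eq_self n p).symm
  have hpu : ¬ p ∣ u := Nat.not_dvd_ordCompl hp hn0
  have hpn : p ∣ n := by
    rw [hnu]
    exact Dvd.dvd.mul_right (dvd_pow_self p hpa.pos.ne') _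
  let w := ∑ i ∈ Finset.range q, n ^ i
  have hw4 : w % 4 = 3 := by rw [← hq4]; exact geom_mod_four hn q
  have hwp : ((w : ℕ) : ℤ) ≡ 1 [ZMOD p] := by
    have h1 : (w : ZMod p) = 1 := by
      have h2 : (n : ZMod p) = 0 := (ZMod.natCast_eq_zero_iff n p).2 hpn
      have h3 : (w : ZMod p) = ∑ i ∈ Finset.range q, (n : ZMod p) ^ i := by
        simp [w]
      rw [h3, h2]
      obtain ⟨q', rfl⟩ : ∃ q', q = q' + 1 := ⟨q - 1, by have := hq.pos; omega⟩
      rw [Finset.sum_range_succ']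
      simp
    have h2 : ((w : ℤ) : ZMod p) = ((1 : ℤ) : ZMod p) := by
      push_cast
      exact h1
    exact (ZMod.intCast_eq_intCast_iff _ _ _).1 h2
  have hJ : jacobiSym p w = -1 := by
    rw [jacobiSym.quadratic_reciprocity_three_mod_four hp4 hw4]
    have h1 : jacobiSym w p = 1 := by
      rw [jacobiSym.mod_left, hwp, ← jacobiSym.mod_left, jacobiSym.one_left]
    rw [h1]
  obtain ⟨r, hr, hrw, hrJ⟩ := jacobiSym.eq_neg_one_at_prime_divisor_of_eq_neg_one hJ
  have hrf : Fact r.Prime := ⟨hr⟩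
  rw [← jacobiSym.legendreSym.to_jacobiSym] at hrJ
  have hr0 : (p : ZMod r) ≠ 0 := by
    intro h0
    have h1 : legendreSym r (p : ℤ) = 0 := by
      rw [legendreSym.eq_zero_iff]
      exact_mod_cast h0
    rw [h1] at hrJ
    norm_num at hrJ
  have hj : (p : ZMod r) ^ (r / 2) = -1 := by
    have h1 := legendreSym.eq_pow r (p : ℤ)
    rw [hrJ] at h1
    push_cast at h1
    exact h1.symm
  exact excluded_dvd hm hm3 (by omega) h hr (hrw.trans (geom_dvd hqm)) hp hnu hpu hpa hj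

end Q17.Sing
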